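import Pool.Agent.P.MP_9167e9_an.Gam2.Base

/-!
The projection of `Γ` to the base core.
-/

noncomputable section
open scoped Classical

namespace Pool.Agent.P.MP_9167e9_an

namespace G2

open G1

variable {P : Prm} {F : Set (Cell P)} {w : WS (FreeGroup P.S) (FreeGroup P.S × P.S) (TC F)}

theorem small20 (hF : Adm F) (hN : NumAdm F) {c : Cell P} (hc : c ∈ F) {t : ℕ}
    (ht : t ≤ c.R ^ 12) : ∀ e ∈ F, e.g ≤ 20 * t → e.sz ≤ c.δ0 := by
  intro e he h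
  refine hN.small c hc e he ?_
  by_contra hle
  rw [not_lt] at hle
  have h1 := (hF.ok c hc).R_big
  have h2 : c.R ^ 15 ≤ e.R ^ 15 := Nat.pow_le_pow_left hle 15
  have h3 : c.R ^ 12 ≤ c.R ^ 15 := Nat.pow_le_pow_right (by omega) (by norm_num)
  have h4 : 0 < c.R ^ 15 := by positivity
  unfold Cell.g at h
  omega

theorem lip (hF : Adm F) (hw : TInst w) (h1 : Gam1 F) (hN : NumAdm F) {c : Cell P} (hc : c ∈ F)
    (hb : BasOut c) (γ γ' : Gam F) (y y' : c.V × ZMod 2) (ht : dG F γ γ' ≤ c.R ^ 12)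
    (hy : NP F c γ y) (hy' : NP F c γ' y') : dC c.τ y y' ≤ 2 * c.L := by
  obtain ⟨x, rfl, m1, hx, hd⟩ := np_lift hw h1 hc hb hy
  obtain ⟨x', rfl, m1', hx', -⟩ := np_lift hw h1 hc hb hy'
  obtain ⟨u, hu, g1, -, -, g2⟩ := proc hw h1 m1 ht (small20 hF hN hc le_rfl)
  by_cases hlt : 2 * c.R ^ 12 + 2 * c.R ^ 12 * c.δ0 < (w.WB (tc F c hc 1) x).card
  · have h2 := gc hw h1 hc hb g1 (hw.out.min_good _ _ m1') hu
    rw [← g2 hlt, hx, hx'] at h2
    omega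
  · have h2 := hy' y
    have h3 := h1.dG_tri (mkG F x') (mkG F x) (pos F c y)
    have h4 := h1.dG_tri (pos F c y) (mkG F x') (pos F c y')
    have h5 := h1.dG_symm (pos F c y) (mkG F x')
    have h6 := h1.dG_symm (mkG F x') (mkG F x)
    have h7 := h1.pos_d c hc y y'
    have h8 := (hF.ok c hc).R_big
    have h9 : c.R ^ 12 * c.δ0 ≤ c.R ^ 12 * c.R := Nat.mul_le_mul_left _ (hN.one c hc).δ0_le
    have h10 : c.R ^ 12 * 1000 ≤ c.R ^ 12 * c.R := Nat.mul_le_mul_left _ h8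
    have h11 : c.R ^ 12 * c.R * 1000 ≤ c.R ^ 12 * c.R * c.R := Nat.mul_le_mul_left _ h8
    have h12 : c.R ^ 12 * c.R * c.R * 1000 ≤ c.R ^ 12 * c.R * c.R * c.R :=
      Nat.mul_le_mul_left _ h8
    have h13 : c.L = c.R ^ 12 * c.R * c.R * c.R := by
      unfold Cell.L
      ring
    rw [mul_assoc] at hlt
    omega

theorem contr (hw : TInst w) (h1 : Gam1 F) (hN : NumAdm F) {c : Cell P} (hc : c ∈ F)
    (hb : BasOut c) (r : ℕ) : ∃ D, ∀ γ γ' y y', D < dG F γ (pos F c y) → dG F γ γ' ≤ r →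
      NP F c γ y → NP F c γ' y' → dC c.τ y y' ≤ c.L := by
  obtain ⟨δ, hδ⟩ := hN.fin (20 * r)
  refine ⟨2 * r + 2 * r * δ, fun γ γ' y y' hD ht hy hy' => ?_⟩
  obtain ⟨x, rfl, m1, hx, hd⟩ := np_lift hw h1 hc hb hy
  obtain ⟨x', rfl, m1', hx', -⟩ := np_lift hw h1 hc hb hy'
  obtain ⟨u, hu, g1, -, -, g2⟩ := proc hw h1 m1 ht fun e he h => hδ e he (Or.inl h)
  have h2 := gc hw h1 hc hb g1 (hw.out.min_good _ _ m1') hu
  rwa [← g2 (by omega), hx, hx'] at h2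

theorem lemL (hF : Adm F) (hw : TInst w) (h1 : Gam1 F) (hB : ∀ e ∈ F, BasOut e) {c : Cell P}
    (hc : c ∈ F) (e f : Lm F) (y y' : c.V × ZMod 2) (hef : e = f ∨ adj F e f)
    (he : e ∉ EP F c 1) (hy : NP F c e.1 y) (hy' : NP F c f.1 y') : dC c.τ y y' ≤ 12 * c.L := by
  have hb := hB c hc
  obtain ⟨x, hx0, m1, hx, -⟩ := np_lift hw h1 hc hb hy
  obtain ⟨x', hx0', m1', hx', -⟩ := np_lift hw h1 hc hb hy'
  rcases hef with rfl | hef
  · have h2 := gc hw h1 hc hb (hw.out.min_good _ _ m1) (hw.out.min_good _ _ m1')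
      (hx0.trans hx0'.symm)
    rw [hx, hx'] at h2
    omega
  obtain ⟨u, hu, hd⟩ := lift_d hw h1 x f.1
  have hg : Geo F x u := (h1.geo_iff x u).mpr (by rw [← hw.tree.d_eq, hd, hu])
  by_cases hr : ∃ Q, 10 * w.θ Q ≤ w.run Q x u
  · obtain ⟨Q, hQ⟩ := hr
    have h2 := hw.out.pass Q x u (by have := w.θ_pos Q; omega)
    obtain ⟨e', he', δ, rfl⟩ := tc_surj Q
    rw [θ_tc hw] at hQ
    have h3 : e ∈ EP F e' (mkG F δ) ∧ f ∈ EP F e' (mkG F δ) := by
      by_contra hn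
      refine hef (Or.inr ⟨e', he', x, u, δ, hx0, hu, hg, ⟨_, _, π_Qc hw he' δ x, π_Qc hw he' δ u,
        ?_, ?_⟩, hn⟩)
      · rwa [← hw.tree.d_eq]
      · simpa only [← hw.tree.d_eq, WS.run] using h2
    obtain ⟨⟨a, ha, ha1, ha2⟩, ⟨b, hb0, -, hb2⟩⟩ := h3
    have h4 := lemC hF hw h1 hc hb he' (hB e' he') (δ := δ) (x := a * δ) (x' := b * δ)
      (y := y) (y' := y') (fun k hk h => ?_) (by simpa using ha) (by simpa using hb0)
      (by rwa [map_mul, ← ha2]) (by rwa [map_mul, ← hb2])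
    · omega
    · obtain ⟨rfl, h5⟩ := tc_inj hb h.symm
      refine he ?_
      rw [← h1.EP_P c hc _ h5 1]
      refine ⟨a, ha, ha1, ?_⟩
      rw [ha2, inv_one, mul_one, mul_one, mk_mulK hk]
  · push Not at hr
    have h2 := gc hw h1 hc hb (good_of hw m1 fun Q _ => Or.inl (hr Q).le)
      (hw.out.min_good _ _ m1') (hu.trans hx0'.symm)
    have h3 := (dC_d hw h1 hc (πB hw hc x) (πB hw hc u)).trans_lt (hr (tc F c hc 1))
    rw [θ_tc hw, hx] at h3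
    rw [hx'] at h2
    have h4 := hb.ht.d_tri y (c.cp (w.π (tc F c hc 1) u)) y'
    omega

/-- The point `γ` lies behind the copy `T` of a big core that meets the base. -/
def Beh (w : WS (FreeGroup P.S) (FreeGroup P.S × P.S) (TC F)) (c : Cell P) (hc : c ∈ F)
    (γ : Gam F) (T : Set (Gam F)) : Prop :=
  ∃ Q y, mkG F y = γ ∧ w.Good (tc F c hc 1) y ∧ w.Meet (tc F c hc 1) Q ∧
    3 * w.g Q ≤ 10 * w.run Q (w.π (tc F c hc 1) y) y ∧ T = mkG F '' w.cell Q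

theorem beh_K (hw : TInst w) {B Q : TC F} {y α : FreeGroup P.S} (hα : α ∈ w.K B)
    (h2 : w.Meet B Q) (h3 : 3 * w.g Q ≤ 10 * w.run Q (w.π B y) y) :
    w.Meet B (w.ac Q α) ∧
      3 * w.g (w.ac Q α) ≤ 10 * w.run (w.ac Q α) (w.π B (y * α)) (y * α) ∧
      mkG F '' w.cell Q = mkG F '' w.cell (w.ac Q α) := by
  refine ⟨?_, by rwa [π_K hw hα, hw.out.run_ac, w.g_ac], ?_⟩
  · obtain ⟨b, hb, hb'⟩ := h2
    have h4 := w.cell_ac B b α hb
    rw [w.K_fix B α hα] at h4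
    exact ⟨b * α, h4, w.cell_ac Q b α hb'⟩
  · ext γ
    constructor
    · rintro ⟨x, hx, rfl⟩
      exact ⟨x * α, w.cell_ac Q x α hx, mk_mulK (K_le hw hα)⟩
    · rintro ⟨x, hx, rfl⟩
      have h4 := w.cell_ac _ x α⁻¹ hx
      rw [w.ac_mul, mul_inv_cancel, w.ac_one] at h4
      exact ⟨x * α⁻¹, h4, mk_mulK (inv_mem (K_le hw hα))⟩

theorem beh_uniq (hw : TInst w) {c : Cell P} {hc : c ∈ F} {γ : Gam F} {T T' : Set (Gam F)}
    (h : Beh w c hc γ T) (h' : Beh w c hc γ T') : T = T' := by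
  obtain ⟨Q, y, rfl, g1, g2, g3, rfl⟩ := h
  obtain ⟨Q', y', e1, g1', g2', g3', rfl⟩ := h'
  obtain ⟨k, hk, rfl⟩ := mk_eq.mp e1.symm
  have h6 := g_θ hw Q
  have h7 := w.θ_pos Q
  rcases hw.out.cons _ y k (by rwa [hw.KK_eq]) g1 g1' with hkB | ⟨Q0, α, hα, v1, v2⟩
  · obtain ⟨f1, f2, f3⟩ := beh_K hw (inv_mem hkB) g2' g3'
    rw [mul_inv_cancel_right] at f2
    have h8 := g_θ hw (w.ac Q' k⁻¹)
    have h9 := w.θ_pos (w.ac Q' k⁻¹)
    rw [f3, hw.out.uniq _ Q _ y g2 f1 (by omega) (by omega)]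
  · obtain ⟨f1, f2, f3⟩ := beh_K hw hα g2' g3'
    have h8 := g_θ hw (w.ac Q' α)
    have h9 := w.θ_pos (w.ac Q' α)
    rw [f3]
    by_cases hQ : Q = Q0
    · by_cases hQ' : w.ac Q' α = Q0
      · rw [hQ, hQ']
      · have h10 := hw.out.meet_keep _ Q0 _ _ _ v2 v1 f1 hQ'
        rw [hw.out.uniq _ Q _ y g2 f1 (by omega) (by omega)]
    · have h10 := hw.out.meet_keep _ Q0 _ _ _ v1 v2 g2 hQ
      rw [hw.out.uniq _ Q _ (y * k * α) g2 f1 (by omega) (by omega)]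

/-- If two points are heavy for one cell and have different gates, the gates lie in the cell. -/
theorem gate_mem (hw : TInst w) (hB : ∀ e ∈ F, BasOut e) {B Q : TC F} {y y' : FreeGroup P.S}
    (h : w.Heavy B Q y) (h' : w.Heavy B Q y') (hne : w.π B y ≠ w.π B y') :
    w.π B y ∈ w.cell Q := by
  have h6 := g_θ hw Q
  have h7 := w.θ_pos Q
  have h2 := hw.out.pass Q (w.π B y) y (by unfold WS.Heavy at h; omega)
  obtain ⟨a', ha'⟩ : (w.WB B y).Nonempty := by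
    rw [← Finset.card_pos, WB_card hw, hw.pre.d_comm]
    unfold WS.Heavy at h
    omega
  obtain ⟨a, ha, h3⟩ := hw.out.bot_ex B y a' ha'
  have h4 : a ∈ w.Bot B y := Finset.mem_filter.mpr ⟨h3 y ha', ha⟩
  have h5 : w.Cross a (w.cell Q) := by
    by_contra hn
    exact hne (bot_gate hw h4 (hw.out.bot_keep B Q y y' a h h' h4 hn))
  have h8 := hw.out.bot_car B y a h4
  obtain ⟨z, s⟩ := a
  obtain ⟨e, he, δ, rfl⟩ := tc_surj Q
  have h9 : Conn (w.cell (tc F e he δ)) := by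
    rw [hw.cell_eq]
    exact conn_mul (hB e he).conn δ
  obtain ⟨h10, h11⟩ := (hw.tree.cross _ h9 z s).mp h5
  rw [hw.tree.car_eq] at h8
  rcases h8 with h8 | h8
  · rwa [h8]
  · rwa [Set.mem_singleton_iff.mp h8]

theorem run_sdiff (hw : TInst w) (B Q : TC F) (y y' : FreeGroup P.S) :
    w.run Q (w.π B y) y ≤ w.run Q (w.π B y') y' + (w.WB B y \ w.WB B y').card := by
  refine le_trans (Finset.card_le_card (t := w.W (w.π Q (w.π B y')) (w.π Q y') ∪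
    (w.WB B y \ w.WB B y')) fun a ha => ?_) (Finset.card_union_le _ _)
  obtain ⟨h1, h2⟩ := (hw.pre.gate_W _ _ _ _ _ (w.π_gate Q _) (w.π_gate Q _) a).mp ha
  by_cases h3 : a ∈ w.WB B y'
  · exact Finset.mem_union_left _
      ((hw.pre.gate_W _ _ _ _ _ (w.π_gate Q _) (w.π_gate Q _) a).mpr ⟨h3, h2⟩)
  · exact Finset.mem_union_right _ (Finset.mem_sdiff.mpr ⟨h1, h3⟩)

theorem np_self (h1 : Gam1 F) {c : Cell P} (hc : c ∈ F) (hb : BasOut c) (y : c.V × ZMod 2) :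
    NP F c (pos F c y) y := fun y' => by
  rw [h1.pos_d c hc, hb.ht.d_self]
  exact Nat.zero_le _

theorem t12 (hF : Adm F) (hw : TInst w) (h1 : Gam1 F) (hN : NumAdm F) (hB : ∀ e ∈ F, BasOut e)
    {c : Cell P} (hc : c ∈ F) :
    ∃ (Y : Type) (h2 : Gam F → Option Y) (z2 : Y → c.V × ZMod 2), ∀ γ,
      (∀ y, 4 * c.R ^ 3 < dG F γ (pos F c y)) →
      (∀ γ' y y', dG F γ γ' ≤ c.R ^ 2 → NP F c γ y → NP F c γ' y' → dC c.τ y y' ≤ c.δ0) ∨
        ∃ T, (∀ γ', dG F γ γ' ≤ c.R ^ 2 → h2 γ' = some T) ∧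
          ∀ y, NP F c γ y → dC c.τ y (z2 T) ≤ 6 * c.L := by
  have hb := hB c hc
  refine ⟨Set (Gam F), fun γ => if h : ∃ T, Beh w c hc γ T then some h.choose else none,
    fun T => Classical.epsilon fun y => pos F c y ∈ T, fun γ hγ => ?_⟩
  rw [or_iff_not_imp_left]
  intro hn
  push Not at hn
  obtain ⟨γ', y, y', ht, hy, hy', hlt⟩ := hn
  obtain ⟨x, rfl, m1, hx, hd⟩ := np_lift hw h1 hc hb hy
  obtain ⟨x', rfl, m1', hx', -⟩ := np_lift hw h1 hc hb hy'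
  have hR := (hF.ok c hc).R_big
  have hs := small20 hF hN hc (t := c.R ^ 2) (Nat.pow_le_pow_right (by omega) (by norm_num))
  have n1 : c.R ^ 2 * c.δ0 ≤ c.R ^ 2 * c.R := Nat.mul_le_mul_left _ (hN.one c hc).δ0_le
  have n2 : c.R ^ 2 * 1000 ≤ c.R ^ 2 * c.R := Nat.mul_le_mul_left _ hR
  have n3 : c.R ^ 3 = c.R ^ 2 * c.R := by ring
  have n4 : 2 * c.R ^ 2 * c.δ0 = 2 * (c.R ^ 2 * c.δ0) := by ring
  have hfar : 2 * c.R ^ 2 + 2 * c.R ^ 2 * c.δ0 < (w.WB (tc F c hc 1) x).card := by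
    have := hγ y
    omega
  obtain ⟨u, hu, g1, -, g3, g2⟩ := proc hw h1 m1 ht hs
  have g4 := g2 hfar
  obtain ⟨k, hk, rfl⟩ := mk_eq.mp hu
  have hyy : y ≠ y' := fun h => by
    rw [h, hb.ht.d_self] at hlt
    omega
  rcases hw.out.cons _ u k (by rwa [hw.KK_eq]) g1 (hw.out.min_good _ _ m1') with
    hkB | ⟨Q, α, hα, v1, v2⟩
  · rw [π_K hw hkB, (cp_K hb (πB hw hc u) ((KB hw).mp hkB)).2, ← g4, hx] at hx'
    exact absurd hx' hyy
  have e1 : c.cp (w.π (tc F c hc 1) (u * k * α)) = y' := by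
    rw [π_K hw hα, (cp_K hb (πB hw hc _) ((KB hw).mp hα)).2, hx']
  have e2 : c.cp (w.π (tc F c hc 1) u) = y := by rw [← g4, hx]
  have hne : w.π (tc F c hc 1) u ≠ w.π (tc F c hc 1) (u * k * α) := fun h =>
    hyy (by rw [← e1, ← e2, h])
  have q1 := gate_mem hw hB v1 v2 hne
  have q2 := gate_mem hw hB v2 v1 hne.symm
  have h6 := g_θ hw Q
  have h7 := w.θ_pos Q
  have hQB : Q ≠ tc F c hc 1 := by
    rintro rfl
    unfold WS.Heavy at v1
    rw [run_π hw] at v1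
    omega
  obtain ⟨e, he, δ, rfl⟩ := tc_surj Q
  have hbig : c.R ≤ e.R := by
    by_contra hlt'
    have h2 := hN.small c hc e he (by omega)
    have h3 := (hN.one e he).g_sz
    have h4 : w.run (tc F e he δ) _ _ ≤ _ := w.ax2 _ _ _ _ hQB (π_mem _ u) (π_mem _ (u * k * α))
    rw [run_cell hw q1 q2] at h4
    have h5 := dC_d hw h1 hc (πB hw hc u) (πB hw hc (u * k * α))
    rw [e1, e2] at h5
    have h8 : w.g (tc F e he δ) = e.g := hw.g_eq _
    omega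
  refine ⟨mkG F '' w.cell (tc F e he δ), fun γ'' ht'' => ?_, fun y0 hy0 => ?_⟩
  · obtain ⟨v, hv, f1, f2, -, -⟩ := proc hw h1 m1 ht'' hs
    have f5 := run_sdiff hw (tc F c hc 1) (tc F e he δ) u v
    have f6 : (w.WB (tc F c hc 1) u \ w.WB (tc F c hc 1) v).card ≤
        (w.WB (tc F c hc 1) u \ w.WB (tc F c hc 1) x).card +
          (w.WB (tc F c hc 1) x \ w.WB (tc F c hc 1) v).card :=
      (Finset.card_le_card (sdiff_triangle _ _ _)).trans (Finset.card_union_le _ _)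
    have f7 : c.R ^ 3 ≤ w.θ (tc F e he δ) := by
      rw [θ_tc hw]
      exact (Nat.pow_le_pow_right (by omega) (by norm_num)).trans (Nat.pow_le_pow_left hbig 15)
    have hbeh : Beh w c hc γ'' (mkG F '' w.cell (tc F e he δ)) :=
      ⟨_, v, hv, f1, ⟨_, π_mem _ u, q1⟩, by unfold WS.Heavy at v1; omega, rfl⟩
    have hex : ∃ T, Beh w c hc γ'' T := ⟨_, hbeh⟩
    simp only [dif_pos hex]
    rw [beh_uniq hw hex.choose_spec hbeh]
  · have p1 : pos F c y = mkG F (w.π (tc F c hc 1) u) := by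
      rw [← e2, h1.pos_cp c hc _ (πB hw hc u)]
    obtain ⟨z, hz, p2⟩ := Classical.epsilon_spec
      (p := fun y => pos F c y ∈ mkG F '' w.cell (tc F e he δ)) ⟨y, _, q1, p1.symm⟩
    have p3 := lemC hF hw h1 hc hb he (hB e he) (δ := δ) (fun k' hk' h => hQB ?_)
      ((hF.ok e he).sub _ ((mem_cell hw).mp q1)) ((hF.ok e he).sub _ ((mem_cell hw).mp hz))
      (p1 ▸ np_self h1 hc hb y) (p2 ▸ np_self h1 hc hb _)
    · obtain ⟨x0, hx0, m0, rfl, -⟩ := np_lift hw h1 hc hb hy0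
      have p4 := gc hw h1 hc hb (hw.out.min_good _ _ m0) (hw.out.min_good _ _ m1) hx0
      rw [hx] at p4
      exact (hb.ht.d_tri _ y _).trans ((Nat.add_le_add p4 p3).trans (by omega))
    · have p4 := w.cell_ac _ _ k' q1
      rw [hw.ac_eq, h, memB hw] at p4
      have p5 : dC c.τ (c.cp (w.π (tc F c hc 1) u)) (c.cp (w.π (tc F c hc 1) u * k')) = 0 := by
        rw [← h1.pos_d c hc, h1.pos_cp c hc _ (πB hw hc u), h1.pos_cp c hc _ p4, mk_mulK hk',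
          ← h1.pos_cp c hc _ (πB hw hc u), h1.pos_d c hc, hb.ht.d_self]
      have p6 := (hb.cp_eq _ _ (πB hw hc u) p4).mp (hb.ht.d_zero _ _ p5)
      rw [inv_mul_cancel_left] at p6
      have p7 := w.K_fix _ _ (inv_mem ((KB hw (hc := hc)).mpr p6))
      rw [← p7, ← h, hw.ac_eq, mul_inv_cancel_right]

end G2

theorem pGam2 (hTW : StTW) (hBas : StBas) (hNum : StNum) (hG1 : StGam1) : StGam2 := by
  intro P F hF c hc
  obtain ⟨w, hw⟩ := hTW P F hF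
  have hB : ∀ e ∈ F, BasOut e := fun e he =>
    hBas P e (by have := hF.j_big; omega) (hF.ok e he)
  have hN := hNum P F hF
  have h1 := hG1 P F hF
  have hb := hB c hc
  refine ⟨fun γ => ?_, fun a y h => ?_, fun p hp γ y h y' => ?_, G2.lip hF hw h1 hN hc hb,
    G2.lemL hF hw h1 hB hc, G2.contr hw h1 hN hc hb, G2.t12 hF hw h1 hN hB hc⟩
  · exact Finite.exists_min fun y => dG F γ (pos F c y)
  · have h2 := h a
    rw [h1.pos_d c hc, h1.pos_d c hc, hb.ht.d_self] at h2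
    exact (hb.ht.d_zero _ _ (by omega)).symm
  · have h2 := h (y'.1, y'.2 - pr p)
    rw [← h1.dG_mul _ _ (mkG F p), ← h1.dG_mul γ (pos F c (y'.1, y'.2 - pr p)) (mkG F p),
      h1.pos_P c hc p hp, h1.pos_P c hc p hp] at h2
    simpa using h2

end Pool.Agent.P.MP_9167e9_an
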