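import Pool.Agent.P.MP_9167e9_an.Gam1.TP

/-!
Nearest points of the base core, minimal lifts, and the projection of another copy to the base.
-/

noncomputable section
open scoped Classical

namespace Pool.Agent.P.MP_9167e9_an.G2

open G1

variable {P : Prm} {F : Set (Cell P)} {w : WS (FreeGroup P.S) (FreeGroup P.S × P.S) (TC F)}

theorem sd_le {α : Type} {i j : DecidableEq α} {s t : Finset α} {m : ℕ}
    (h : (@SDiff.sdiff _ (@Finset.instSDiff _ i) s t).card ≤ m) :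
    (@SDiff.sdiff _ (@Finset.instSDiff _ j) s t).card ≤ m := by
  obtain rfl : i = j := Subsingleton.elim _ _
  exact h

theorem mk_eq {x y : FreeGroup P.S} : mkG F x = mkG F y ↔ ∃ k ∈ KG F, y = x * k := by
  constructor
  · intro h
    exact ⟨x⁻¹ * y, QuotientGroup.eq.mp h, by simp⟩
  · rintro ⟨k, hk, rfl⟩
    exact QuotientGroup.eq.mpr (by simpa using hk)

theorem mk_mulK {x k : FreeGroup P.S} (hk : k ∈ KG F) : mkG F (x * k) = mkG F x :=
  (mk_eq.mpr ⟨k, hk, rfl⟩).symm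

theorem memB (hw : TInst w) {c : Cell P} {hc : c ∈ F} {x : FreeGroup P.S} :
    x ∈ w.cell (tc F c hc 1) ↔ c.Qc x := by
  rw [mem_cell hw]
  simp

theorem πB (hw : TInst w) {c : Cell P} (hc : c ∈ F) (x : FreeGroup P.S) :
    c.Qc (w.π (tc F c hc 1) x) := (memB hw).mp (π_mem _ x)

theorem KB (hw : TInst w) {c : Cell P} {hc : c ∈ F} {k : FreeGroup P.S} :
    k ∈ w.K (tc F c hc 1) ↔ k ∈ c.Kg := by
  rw [hw.K_iff]
  simp

theorem WB_card (hw : TInst w) (B : TC F) (x : FreeGroup P.S) :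
    (w.WB B x).card = w.d x (w.π B x) := hw.pre.d_comm _ _

theorem dG_d (hw : TInst w) (h1 : Gam1 F) (x y : FreeGroup P.S) :
    dG F (mkG F x) (mkG F y) ≤ w.d x y := by
  have h := h1.dG_le (mkG F y) (x * y⁻¹)
  rw [← map_mul, inv_mul_cancel_right, h1.dG_symm] at h
  rwa [hw.tree.d_eq]

/-- A lift at the distance of the quotient. -/
theorem lift_d (hw : TInst w) (h1 : Gam1 F) (x : FreeGroup P.S) (γ : Gam F) :
    ∃ y, mkG F y = γ ∧ w.d x y = dG F (mkG F x) γ := by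
  obtain ⟨a, ha, h⟩ := h1.dG_ex (mkG F x) γ
  refine ⟨a * x, by rw [map_mul, h], ?_⟩
  rw [hw.tree.d_eq, ← ha, ← nr_inv]
  simp

theorem cp_K {c : Cell P} (hb : BasOut c) {x k : FreeGroup P.S} (hx : c.Qc x) (hk : k ∈ c.Kg) :
    c.Qc (x * k) ∧ c.cp (x * k) = c.cp x := by
  obtain ⟨h1, h2⟩ := (hb.memK k).mp hk
  have h3 := hb.mulP x k hx h1 (congrArg Prod.fst h2)
  exact ⟨h3, ((hb.cp_eq x (x * k) hx h3).mpr (by simpa using hk)).symm⟩

theorem dC_d (hw : TInst w) (h1 : Gam1 F) {c : Cell P} (hc : c ∈ F) {x y : FreeGroup P.S}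
    (hx : c.Qc x) (hy : c.Qc y) : dC c.τ (c.cp x) (c.cp y) ≤ w.d x y := by
  rw [← h1.pos_d c hc, h1.pos_cp c hc x hx, h1.pos_cp c hc y hy]
  exact dG_d hw h1 x y

/-- A nearest point comes from a minimal lift. -/
theorem np_lift (hw : TInst w) (h1 : Gam1 F) {c : Cell P} (hc : c ∈ F) (hb : BasOut c)
    {γ : Gam F} {y : c.V × ZMod 2} (h : NP F c γ y) :
    ∃ x, mkG F x = γ ∧ w.Min (tc F c hc 1) x ∧ c.cp (w.π (tc F c hc 1) x) = y ∧
      (w.WB (tc F c hc 1) x).card = dG F γ (pos F c y) := by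
  obtain ⟨x, hx, hd⟩ := lift_d hw h1 (c.rp y) γ
  have hlow : ∀ x', mkG F x' = γ → dG F γ (pos F c y) ≤ (w.WB (tc F c hc 1) x').card := by
    intro x' hx'
    rw [WB_card hw]
    refine (h (c.cp (w.π (tc F c hc 1) x'))).trans ?_
    rw [h1.pos_cp c hc _ (πB hw hc x'), ← hx']
    exact dG_d hw h1 _ _
  have h2 := (w.π_gate (tc F c hc 1) x).2 (c.rp y) ((memB hw).mpr (hb.rp y).1)
  have h3 := hlow x hx
  rw [WB_card hw] at h3
  have h4 : w.d x (c.rp y) = dG F γ (pos F c y) := by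
    rw [hw.pre.d_comm, hd, h1.dG_symm]
    rfl
  have h5 : w.π (tc F c hc 1) x = c.rp y := (hw.pre.d_zero _ _).mp (by omega)
  have h6 : (w.WB (tc F c hc 1) x).card = dG F γ (pos F c y) := by
    rw [WB_card hw]
    omega
  refine ⟨x, hx, fun k hk => ?_, by rw [h5, (hb.rp y).2], h6⟩
  rw [h6]
  exact hlow _ (by rw [mk_mulK (by rwa [hw.KK_eq] at hk), hx])

/-- Two good lifts have close gates. -/
theorem gc (hw : TInst w) (h1 : Gam1 F) {c : Cell P} (hc : c ∈ F) (hb : BasOut c)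
    {x x' : FreeGroup P.S} (hx : w.Good (tc F c hc 1) x) (hx' : w.Good (tc F c hc 1) x')
    (h : mkG F x = mkG F x') :
    dC c.τ (c.cp (w.π (tc F c hc 1) x)) (c.cp (w.π (tc F c hc 1) x')) ≤ c.L := by
  obtain ⟨k, hk, rfl⟩ := mk_eq.mp h
  obtain ⟨α, hα, h2⟩ := hw.out.gatecons _ x k (by rwa [hw.KK_eq]) hx hx'
  rw [θ_tc hw] at h2
  unfold WS.run at h2
  rw [π_K hw hα] at h2
  obtain ⟨h3, h4⟩ := cp_K hb (πB hw hc (x * k)) ((KB hw).mp hα)
  rw [← h4]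
  exact (dC_d hw h1 hc (πB hw hc x) h3).trans h2

theorem bot_gate (hw : TInst w) {B : TC F} {x y : FreeGroup P.S} {a : FreeGroup P.S × P.S}
    (hx : a ∈ w.Bot B x) (hy : a ∈ w.Bot B y) : w.π B x = w.π B y := by
  by_contra hne
  have h1 := hw.out.bot_car B x a hx
  have h2 := hw.out.bot_car B y a hy
  have h3 : a ∈ w.W (w.π B x) x := (Finset.mem_filter.mp hx).1
  have h4 := (hw.pre.gate_sep _ x _ (w.π_gate B x) a).mp h3 _ (π_mem B y)
  have h5 : ∀ u v, a ∈ w.W u v → a ∈ w.W v u := fun u v h =>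
    (w.mem_W a v u).mpr ((w.mem_W a u v).mp h).symm
  have h6 := hw.tree.two a x _ _ (h5 _ _ h3) (h5 _ _ h4)
  obtain ⟨z, s⟩ := a
  have h7 : (z, s) ∈ w.W z (FreeGroup.of s * z) := by
    rw [hw.tree.W_edge]
    exact Finset.mem_singleton_self _
  rw [hw.tree.car_eq] at h1 h2
  rcases h1 with h1 | h1 <;> rcases h2 with h2 | h2
  · exact hne (h1.trans h2.symm)
  · rw [h1, Set.mem_singleton_iff.mp h2] at h6
    exact h6 h7
  · rw [h2, Set.mem_singleton_iff.mp h1] at h6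
    exact h6 (h5 _ _ h7)
  · exact hne ((Set.mem_singleton_iff.mp h1).trans (Set.mem_singleton_iff.mp h2).symm)

/-- A common wall forces a common gate. -/
theorem wall_gate (hw : TInst w) {B : TC F} {x y : FreeGroup P.S} {a : FreeGroup P.S × P.S}
    (hx : a ∈ w.WB B x) (hy : a ∈ w.WB B y) : w.π B x = w.π B y := by
  obtain ⟨b, hb, h⟩ := hw.out.bot_ex B x a hx
  exact bot_gate hw (a := b) (Finset.mem_filter.mpr ⟨h x hx, hb⟩)
    (Finset.mem_filter.mpr ⟨h y hy, hb⟩)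

/-- Moving a minimal lift. -/
theorem proc (hw : TInst w) (h1 : Gam1 F) {B : TC F} {x : FreeGroup P.S} (hx : w.Min B x)
    {γ : Gam F} {t δ : ℕ} (ht : dG F (mkG F x) γ ≤ t) (hδ : ∀ e ∈ F, e.g ≤ 20 * t → e.sz ≤ δ) :
    ∃ y, mkG F y = γ ∧ w.Good B y ∧ (w.WB B x \ w.WB B y).card ≤ 2 * t + 2 * t * δ ∧
      (w.WB B y \ w.WB B x).card ≤ t + 2 * t * δ ∧
      (2 * t + 2 * t * δ < (w.WB B x).card → w.π B x = w.π B y) := by
  obtain ⟨y, hy, hd⟩ := lift_d hw h1 x γ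
  obtain ⟨k, hk, g1, -, -, g2, g3⟩ := hw.out.process B x y t δ (fun _ _ => True) hx (by omega)
    (fun _ _ _ => trivial) (fun _ _ _ _ _ => trivial) (fun _ _ => trivial) (fun Q hQ => by
      rw [hw.g_eq] at hQ
      rw [hw.δ_eq]
      exact ⟨hδ _ Q.2.1 hQ, fun _ _ _ _ _ _ => trivial⟩)
  have g4 : (w.WB B x \ w.WB B (y * k)).card ≤ 2 * t + 2 * t * δ := sd_le g2
  refine ⟨y * k, by rw [mk_mulK (by rwa [hw.KK_eq] at hk), hy], g1, g4, sd_le g3,
    fun hlt => ?_⟩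
  have h2 := Finset.card_sdiff_add_card_inter (w.WB B x) (w.WB B (y * k))
  obtain ⟨a, ha⟩ : (w.WB B x ∩ w.WB B (y * k)).Nonempty := Finset.card_pos.mp (by omega)
  exact wall_gate hw (Finset.mem_inter.mp ha).1 (Finset.mem_inter.mp ha).2

theorem min_geo (hw : TInst w) {B : TC F} {z : FreeGroup P.S} (hz : w.Min B z) (Q : TC F)
    {κ : FreeGroup P.S} (hκ : κ ∈ w.K Q) :
    w.run Q (w.π B z) z ≤ w.d (w.π Q (w.π B z)) (w.π Q z * κ) + w.θ Q := by
  refine hw.out.geo _ z (fun k hk => ?_) Q κ hκ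
  have h2 := hz k hk
  rw [WB_card hw, WB_card hw] at h2
  have h3 := π_le B (z * k) (π_mem (w := w) B z)
  rw [hw.pre.d_comm (w.π B z) z, hw.pre.d_comm (w.π B z) (z * k)]
  omega

/-- A point that differs from a minimal point by short runs is good. -/
theorem good_of (hw : TInst w) {B : TC F} {z y : FreeGroup P.S} (hz : w.Min B z)
    (h : ∀ Q, Q ≠ B → w.run Q z y ≤ 10 * w.θ Q ∨ ∀ κ ∈ w.K Q,
      w.run Q (w.π B y) y ≤ w.d (w.π Q (w.π B y)) (w.π Q y * κ) + 2 * w.θ Q) : w.Good B y := by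
  intro Q κ hκ
  have h6 := g_θ hw Q
  by_cases hQ : Q = B
  · rw [hQ, run_π hw]
    omega
  rcases h Q hQ with h2 | h2
  · have h3 := min_geo hw hz Q hκ
    have h4 : w.d (w.π Q (w.π B y)) (w.π Q (w.π B z)) ≤ w.θ Q :=
      w.ax2 Q B _ _ hQ (π_mem B y) (π_mem B z)
    have h5 := hw.pre.d_tri (w.π Q (w.π B y)) (w.π Q (w.π B z)) (w.π Q y)
    have h7 := hw.pre.d_tri (w.π Q (w.π B z)) (w.π Q z) (w.π Q y)
    have h8 := hw.pre.d_tri (w.π Q (w.π B z)) (w.π Q (w.π B y)) (w.π Q z * κ)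
    have h9 := hw.pre.d_tri (w.π Q (w.π B y)) (w.π Q y * κ) (w.π Q z * κ)
    have h10 := hw.pre.d_mul (w.π Q y) (w.π Q z) κ
    have h11 := hw.pre.d_comm (w.π Q y) (w.π Q z)
    have h12 := hw.pre.d_comm (w.π Q (w.π B y)) (w.π Q (w.π B z))
    unfold WS.run at *
    omega
  · have h3 := h2 κ hκ
    omega

/-- The lowest core point of a copy. -/
theorem low_ex (hw : TInst w) (B : TC F) {e : Cell P} (he : e ∈ F) (δ : FreeGroup P.S) :
    ∃ k ∈ KG F, ∃ z ∈ w.cell (tc F e he (δ * k)), w.Min B z ∧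
      w.π (tc F e he (δ * k)) (w.π B z) = z := by
  have hne : ∃ n, ∃ k ∈ KG F, ∃ z ∈ w.cell (tc F e he (δ * k)), (w.WB B z).card = n :=
    ⟨_, 1, one_mem _, _, π_mem _ 1, rfl⟩
  obtain ⟨k, hk, z, hz, hn⟩ := Nat.find_spec hne
  have hmin : ∀ k' ∈ KG F, ∀ z' ∈ w.cell (tc F e he (δ * k')),
      (w.WB B z).card ≤ (w.WB B z').card := fun k' hk' z' hz' =>
    hn ▸ Nat.find_min' hne ⟨k', hk', z', hz', rfl⟩
  refine ⟨k, hk, z, hz, fun k' hk' => ?_, ?_⟩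
  · rw [hw.KK_eq] at hk'
    refine hmin (k * k') (mul_mem hk hk') _ ?_
    rw [← mul_assoc, ← hw.ac_eq]
    exact w.cell_ac _ _ _ hz
  · have h2 := hmin k hk _ (π_mem (tc F e he (δ * k)) (w.π B z))
    rw [WB_card hw, WB_card hw] at h2
    have h3 := (w.π_gate (tc F e he (δ * k)) (w.π B z)).2 z hz
    have h4 := π_le B (w.π (tc F e he (δ * k)) (w.π B z)) (π_mem (w := w) B z)
    have h5 := hw.pre.d_comm z (w.π B z)
    have h6 := hw.pre.d_comm (w.π (tc F e he (δ * k)) (w.π B z)) (w.π B z)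
    exact (hw.pre.d_zero _ _).mp (by omega)

/-- A good lift of a point of a copy with its trees, seen from the lowest core point. -/
theorem low_good (hF : Adm F) (hw : TInst w) {B : TC F} {e : Cell P} (he : e ∈ F)
    (hb : BasOut e) {δ z : FreeGroup P.S} (hne : tc F e he δ ≠ B) (hz : z ∈ w.cell (tc F e he δ))
    (hm : w.Min B z) (hπ : w.π (tc F e he δ) (w.π B z) = z) {x : FreeGroup P.S}
    (hx : x * δ⁻¹ ∈ e.Qp) :
    ∃ κ ∈ w.K (tc F e he δ), x * κ * δ⁻¹ ∈ e.Qp ∧ w.Good B (x * κ) ∧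
      ∀ κ' ∈ w.K (tc F e he δ),
        w.d z (w.π (tc F e he δ) (x * κ)) ≤ w.d z (w.π (tc F e he δ) (x * κ) * κ') := by
  have hne' : ∃ n, ∃ κ ∈ w.K (tc F e he δ), w.d z (w.π (tc F e he δ) x * κ) = n :=
    ⟨_, 1, one_mem _, rfl⟩
  obtain ⟨κ, hκ, hn⟩ := Nat.find_spec hne'
  have hmin : ∀ κ' ∈ w.K (tc F e he δ),
      w.d z (w.π (tc F e he δ) (x * κ)) ≤ w.d z (w.π (tc F e he δ) (x * κ) * κ') := by
    intro κ' hκ'
    rw [π_K hw hκ, hn, mul_assoc]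
    exact Nat.find_min' hne' ⟨κ * κ', mul_mem hκ hκ', rfl⟩
  have hQp : x * κ * δ⁻¹ ∈ e.Qp := by
    obtain ⟨g1, g2⟩ := (hb.memK _).mp ((hw.K_iff e he δ κ).mp hκ)
    simpa [mul_assoc] using (hF.ok e he).inv _ hx _ g1 (congrArg Prod.fst g2)
  refine ⟨κ, hκ, hQp, good_of hw hm fun Q _ => ?_, hmin⟩
  by_cases hQ : Q = tc F e he δ
  · refine Or.inr fun κ' hκ' => ?_
    subst hQ
    have h3 := hmin κ' hκ'
    have h4 : w.d (w.π (tc F e he δ) (w.π B (x * κ))) (w.π (tc F e he δ) (w.π B z)) ≤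
        w.θ (tc F e he δ) := w.ax2 _ B _ _ hne (π_mem B _) (π_mem B z)
    rw [hπ] at h4
    have h5 := hw.pre.d_tri (w.π (tc F e he δ) (w.π B (x * κ))) z (w.π (tc F e he δ) (x * κ))
    have h6 := hw.pre.d_tri z (w.π (tc F e he δ) (w.π B (x * κ)))
      (w.π (tc F e he δ) (x * κ) * κ')
    have h7 := hw.pre.d_comm z (w.π (tc F e he δ) (w.π B (x * κ)))
    unfold WS.run
    omega
  · have h3 := OV hF hw he ((hF.ok e he).sub _ ((mem_cell hw).mp hz)) hQp hQ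
    exact Or.inl (by omega)

/-- Two points of a copy other than the base copy have close nearest points. -/
theorem lemC (hF : Adm F) (hw : TInst w) (h1 : Gam1 F) {c : Cell P} (hc : c ∈ F) (hb : BasOut c)
    {e : Cell P} (he : e ∈ F) (hbe : BasOut e) {δ : FreeGroup P.S}
    (hne : ∀ k ∈ KG F, tc F e he (δ * k) ≠ tc F c hc 1) {x x' : FreeGroup P.S}
    (hx : x * δ⁻¹ ∈ e.Qp) (hx' : x' * δ⁻¹ ∈ e.Qp) {y y' : c.V × ZMod 2}
    (hy : NP F c (mkG F x) y) (hy' : NP F c (mkG F x') y') : dC c.τ y y' ≤ 5 * c.L := by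
  obtain ⟨k, hk, z, hz, hm, hπ⟩ := low_ex hw (tc F c hc 1) he δ
  obtain ⟨κ, hκ, g1, g2, -⟩ := low_good hF hw he hbe (hne k hk) hz hm hπ (x := x * k)
    (by simpa [mul_assoc] using hx)
  obtain ⟨κ', hκ', g1', g2', -⟩ := low_good hF hw he hbe (hne k hk) hz hm hπ (x := x' * k)
    (by simpa [mul_assoc] using hx')
  obtain ⟨u, hu, m1, rfl, -⟩ := np_lift hw h1 hc hb hy
  obtain ⟨u', hu', m1', rfl, -⟩ := np_lift hw h1 hc hb hy'
  have h2 := gc hw h1 hc hb (hw.out.min_good _ _ m1) g2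
    (by rw [hu, mk_mulK (K_le hw hκ), mk_mulK hk])
  have h3 := gc hw h1 hc hb g2' (hw.out.min_good _ _ m1')
    (by rw [hu', mk_mulK (K_le hw hκ'), mk_mulK hk])
  have h4 := OV hF hw he g1 g1' (hne k hk).symm
  rw [θ_tc hw] at h4
  have h5 := (dC_d hw h1 hc (πB hw hc _) (πB hw hc _)).trans h4
  have h6 := hb.ht.d_tri (c.cp (w.π (tc F c hc 1) u)) (c.cp (w.π (tc F c hc 1) (x * k * κ)))
    (c.cp (w.π (tc F c hc 1) u'))
  have h7 := hb.ht.d_tri (c.cp (w.π (tc F c hc 1) (x * k * κ)))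
    (c.cp (w.π (tc F c hc 1) (x' * k * κ'))) (c.cp (w.π (tc F c hc 1) u'))
  omega

end Pool.Agent.P.MP_9167e9_an.G2
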